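import Mathlib

/-!
# The random relabelling scheme

`X` is the Cantor space, `Str j` the initial segments of length `L j`, and `Om` the space of sequences
of functions `z j : Str j → Fin (B j)`.  A point `x` is hit at stage `j` by `z` when the value
`z j (pre j x)` is at most `j`; this value is then the new label of `x`.
-/

namespace Pool.Agent.LibSier69

open MeasureTheory Set Filter Topology
open scoped ENNReal

/-- Lengths of the initial segments. -/
def L (j : ℕ) : ℕ := j * j

/-- Numbers of values. -/
def B (j : ℕ) : ℕ := 4 ^ (j + 1)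

theorem L_mono : Monotone L := fun _ _ h => Nat.mul_le_mul h h

theorem B_pos (j : ℕ) : 0 < B j := by unfold B; positivity

theorem lt_B (j : ℕ) : j < B j := by
  unfold B
  exact (Nat.lt_succ_self j).trans (Nat.lt_pow_self (by norm_num))

instance (j : ℕ) : NeZero (B j) := ⟨(B_pos j).ne'⟩

/-- Initial segments of length `L j`. -/
abbrev Str (j : ℕ) : Type := Fin (L j) → Bool

/-- Stage `j` functions. -/
abbrev Val (j : ℕ) : Type := Str j → Fin (B j)

/-- The Cantor space. -/
abbrev X : Type := ℕ → Bool

/-- The space of all sequences of stage functions. -/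
abbrev Om : Type := (j : ℕ) → Val j

/-- The initial segment of length `L j`. -/
def pre (j : ℕ) (x : X) : Str j := fun i => x i

/-- `z` hits `x` at stage `j`. -/
def Hit (j : ℕ) (z : Om) (x : X) : Prop := (z j (pre j x) : ℕ) ≤ j

/-- `x` gets the label `k` at stage `N` and is not hit later. -/
def Final (z : Om) (x : X) (N k : ℕ) : Prop :=
  (z N (pre N x) : ℕ) = k ∧ k ≤ N ∧ ∀ j, N < j → ¬ Hit j z x

/-- The label of `x` after stage `N` is `k`. -/
def Lab (z : Om) (x : X) (N k : ℕ) : Prop :=
  ∃ M ≤ N, (z M (pre M x) : ℕ) = k ∧ k ≤ M ∧ ∀ j, M < j → j ≤ N → ¬ Hit j z x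

/-- The uniform probability on the stage `j` functions. -/
noncomputable def unif (j : ℕ) : Measure (Val j) := ProbabilityTheory.uniformOn Set.univ

instance (j : ℕ) : IsProbabilityMeasure (unif j) := by
  unfold unif
  exact ProbabilityTheory.isProbabilityMeasure_uniformOn Set.finite_univ Set.univ_nonempty

/-- The product measure on `Om`. -/
noncomputable def muOm : Measure Om := Measure.infinitePi unif

instance : IsProbabilityMeasure muOm := by unfold muOm; infer_instance

/-- The fair coin. -/
noncomputable def coin : Measure Bool := ProbabilityTheory.uniformOn Set.univ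

instance : IsProbabilityMeasure coin := by
  unfold coin
  exact ProbabilityTheory.isProbabilityMeasure_uniformOn Set.finite_univ Set.univ_nonempty

/-- The fair coin measure on the Cantor space. -/
noncomputable def muX : Measure X := Measure.infinitePi (fun _ => coin)

instance : IsProbabilityMeasure muX := by unfold muX; infer_instance

/-- The initial segments hit by `u`. -/
def hitSet (j : ℕ) (u : Val j) : Finset (Str j) := Finset.univ.filter (fun s => (u s : ℕ) ≤ j)

/-- The proportion of initial segments hit by `u`. -/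
noncomputable def hf (j : ℕ) (u : Val j) : ℝ≥0∞ := ((hitSet j u).card : ℝ≥0∞) / 2 ^ L j

/-- The total proportion of initial segments hit after stage `N`. -/
noncomputable def eta (N : ℕ) (z : Om) : ℝ≥0∞ := ∑' j, hf (j + (N + 1)) (z (j + (N + 1)))

/-- The good part of `Om`. -/
def Om0 : Set Om := {z | ∑' j, hf j (z j) ≠ ∞}

theorem tendsto_eta {z : Om} (hz : z ∈ Om0) : Tendsto (fun N => eta N z) atTop (𝓝 0) := by
  have h := ENNReal.tendsto_sum_nat_add (fun j => hf j (z j)) hz
  exact h.comp (tendsto_add_atTop_nat 1)

theorem final_unique {z : Om} {x : X} {N N' k k' : ℕ} (h : Final z x N k)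
    (h' : Final z x N' k') : k = k' := by
  obtain ⟨h1, h2, h3⟩ := h
  obtain ⟨h1', h2', h3'⟩ := h'
  rcases lt_trichotomy N N' with hN | hN | hN
  · exact absurd (show Hit N' z x from (h1'.le.trans h2')) (h3 N' hN)
  · subst hN
    exact h1.symm.trans h1'
  · exact absurd (show Hit N z x from (h1.le.trans h2)) (h3' N hN)

theorem lab_of_final {z : Om} {x : X} {N k j : ℕ} (h : Final z x N k) (hj : N ≤ j) :
    Lab z x j k :=
  ⟨N, hj, h.1, h.2.1, fun i hi _ => h.2.2 i hi⟩

theorem final_of_lab {z : Om} {x : X} {N k : ℕ} (h : Lab z x N k)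
    (hN : ∀ j, N < j → ¬ Hit j z x) : ∃ M, Final z x M k := by
  obtain ⟨M, hM, h1, h2, h3⟩ := h
  refine ⟨M, h1, h2, fun j hj => ?_⟩
  rcases le_or_gt j N with h | h
  · exact h3 j hj h
  · exact hN j h

/-- If the label changes then there is a hit. -/
theorem exists_hit {z : Om} {x : X} {j N k : ℕ} (hjN : j ≤ N) (h : Lab z x j k)
    (h' : ¬ Lab z x N k) : ∃ i, j < i ∧ i ≤ N ∧ Hit i z x := by
  by_contra hcon
  push Not at hcon
  obtain ⟨M, hM, h1, h2, h3⟩ := h
  refine h' ⟨M, hM.trans hjN, h1, h2, fun i hi hiN => ?_⟩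
  rcases le_or_gt i j with h | h
  · exact h3 i hi h
  · exact hcon i h hiN

theorem pre_of_pre {j N : ℕ} (h : j ≤ N) {x y : X} (hxy : pre N x = pre N y) :
    pre j x = pre j y := by
  funext i
  exact congrFun hxy ⟨i, i.2.trans_le (L_mono h)⟩

end Pool.Agent.LibSier69
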