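import Mathlib
import Pool.Agent.LibSier69.Defs

/-!
The probability that a random function avoids all tuples of a matching.
-/

namespace Pool.Agent.LibSier69

open MeasureTheory Set Filter Topology
open scoped ENNReal

section Count

variable {S T : Type*} {n : ℕ}

open Classical in
/-- The function `u` overwritten by `k` on the tuple `s`. -/
noncomputable def overwrite (k : Fin n → T) (u : S → T) (s : Fin n → S) : S → T :=
  fun v => if h : ∃ i, s i = v then k h.choose else u v

theorem overwrite_apply {k : Fin n → T} {u : S → T} {s : Fin n → S} (hs : Function.Injective s)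
    (i : Fin n) : overwrite k u s (s i) = k i := by
  have h : ∃ j, s j = s i := ⟨i, rfl⟩
  unfold overwrite
  rw [dif_pos h]
  exact congrArg k (hs h.choose_spec)

theorem overwrite_of_ne {k : Fin n → T} {u : S → T} {s : Fin n → S} {v : S}
    (h : ∀ i, s i ≠ v) : overwrite k u s v = u v := by
  unfold overwrite
  rw [dif_neg (by push Not; exact h)]

/-- Overwriting is injective on the pairs of an avoiding function and a tuple of the matching. -/
theorem overwrite_inj (P : Finset (Fin n → S))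
    (hP : ∀ x ∈ P, ∀ y ∈ P, ∀ i i', x i = y i' → x = y ∧ i = i') (k : Fin n → T)
    {u u' : S → T} (hu' : ∀ s ∈ P, ∃ i, u' (s i) ≠ k i)
    {s s' : Fin n → S} (hs : s ∈ P) (hs' : s' ∈ P)
    (h : overwrite k u s = overwrite k u' s') (h2 : u ∘ s = u' ∘ s') : u = u' ∧ s = s' := by
  have inj : ∀ x ∈ P, Function.Injective x := fun x hx i i' hi => (hP x hx x hx i i' hi).2
  have hss : s = s' := by
    by_contra hne
    obtain ⟨i, hi⟩ := hu' s hs
    apply hi
    have h3 : ∀ j, s' j ≠ s i := fun j hj => hne (hP s hs s' hs' i j hj.symm).1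
    rw [← overwrite_of_ne (k := k) (u := u') h3, ← h, overwrite_apply (inj s hs)]
  subst hss
  refine ⟨?_, rfl⟩
  funext v
  by_cases hv : ∃ i, s i = v
  · obtain ⟨i, rfl⟩ := hv
    exact congrFun h2 i
  · push Not at hv
    have h4 := congrFun h v
    rwa [overwrite_of_ne hv, overwrite_of_ne hv] at h4

theorem card_avoid_le [Fintype S] [Fintype T] (P : Finset (Fin n → S))
    (hP : ∀ x ∈ P, ∀ y ∈ P, ∀ i i', x i = y i' → x = y ∧ i = i') (k : Fin n → T)
    (A : Finset (S → T)) (hA : ∀ u ∈ A, ∀ s ∈ P, ∃ i, u (s i) ≠ k i) :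
    Nat.card (S → T) * Nat.card T ^ n ≥ A.card * P.card := by
  classical
  have h1 : Function.Injective (fun p : (A ×ˢ P : Finset _) =>
      ((overwrite k p.1.1 p.1.2, p.1.1 ∘ p.1.2) : (S → T) × (Fin n → T))) := by
    rintro ⟨⟨u, s⟩, hp⟩ ⟨⟨u', s'⟩, hp'⟩ h
    simp only [Prod.mk.injEq] at h
    rw [Finset.mem_product] at hp hp'
    obtain ⟨h2, h3⟩ := overwrite_inj P hP k (hA u' hp'.1) hp.2 hp'.2 h.1 h.2
    exact Subtype.ext (Prod.ext h2 h3)
  have h2 := Nat.card_le_card_of_injective _ h1
  rw [Nat.card_prod, Nat.card_fun (α := Fin n), Nat.card_eq_fintype_card (α := Fin n),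
    Fintype.card_fin] at h2
  rw [Nat.card_eq_fintype_card, Fintype.card_coe, Finset.card_product] at h2
  exact h2

end Count

/-- The probability that a random function avoids all tuples of a matching. -/
theorem unif_avoid_le {N n : ℕ} (P : Finset (Fin n → Str N))
    (hP : ∀ x ∈ P, ∀ y ∈ P, ∀ i i', x i = y i' → x = y ∧ i = i') (k : Fin n → Fin (B N)) :
    unif N {u | ∀ s ∈ P, ∃ i, u (s i) ≠ k i} ≤ (B N : ℝ≥0∞) ^ n / (P.card : ℝ≥0∞) := by
  classical
  rcases Nat.eq_zero_or_pos P.card with h0 | h0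
  · rw [h0, Nat.cast_zero, ENNReal.div_zero]
    · exact le_top
    · exact pow_ne_zero _ (by exact_mod_cast (B_pos N).ne')
  have h1 := card_avoid_le P hP k
    ({u | ∀ s ∈ P, ∃ i, u (s i) ≠ k i} : Set (Val N)).toFinset (by
      intro u hu
      simpa using hu)
  rw [Nat.card_eq_fintype_card, Nat.card_eq_fintype_card (α := Fin (B N)), Fintype.card_fin] at h1
  have h2 : unif N {u | ∀ s ∈ P, ∃ i, u (s i) ≠ k i} =
      ((({u | ∀ s ∈ P, ∃ i, u (s i) ≠ k i} : Set (Val N)).toFinset.card : ℕ) : ℝ≥0∞) /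
        (Fintype.card (Val N) : ℝ≥0∞) := by
    unfold unif
    rw [ProbabilityTheory.uniformOn_univ, ← Measure.count_apply_finset, Set.coe_toFinset]
  rw [h2]
  have hc : (Fintype.card (Val N) : ℝ≥0∞) ≠ 0 := by
    exact_mod_cast Fintype.card_ne_zero
  rw [ENNReal.div_le_iff hc (ENNReal.natCast_ne_top _), mul_comm, ← mul_div_assoc,
    ENNReal.le_div_iff_mul_le (Or.inl (by exact_mod_cast h0.ne')) (Or.inl (ENNReal.natCast_ne_top _))]
  exact_mod_cast h1

end Pool.Agent.LibSier69
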