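import Mathlib

/-!
# Maximal families of tuples with distinct entries
-/

namespace Pool.Agent.LibSier69

/-- Maximal matchings. -/
theorem exists_matching {Y α : Type*} [Finite α] {n : ℕ} (hn : 0 < n) (π : Y → α)
    (S : Set (Fin n → Y)) (hS : ∀ t ∈ S, Function.Injective (fun i => π (t i))) :
    ∃ P : Finset (Fin n → Y), (∀ x ∈ P, x ∈ S) ∧
      (∀ x ∈ P, ∀ y ∈ P, ∀ i i', π (x i) = π (y i') → x = y ∧ i = i') ∧
      ∀ t ∈ S, ∃ x ∈ P, ∃ i i', π (t i) = π (x i') := by
  classical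
  have := Fintype.ofFinite α
  let G : Finset (Fin n → Y) → Prop := fun P => (∀ x ∈ P, x ∈ S) ∧
      (∀ x ∈ P, ∀ y ∈ P, ∀ i i', π (x i) = π (y i') → x = y ∧ i = i')
  have hbound : ∀ P, G P → P.card ≤ Fintype.card α := by
    intro P hP
    have h := Finset.card_le_card_of_injOn (s := P) (t := (Finset.univ : Finset α))
      (fun x => π (x ⟨0, hn⟩)) (fun x _ => Finset.mem_univ _)
      (fun x hx y hy hxy => (hP.2 x hx y hy _ _ hxy).1)
    simpa using h
  have hex : ∃ c, ∃ P, G P ∧ P.card = c := ⟨0, ∅, ⟨by simp, by simp⟩, rfl⟩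
  have hb : ∀ c, (∃ P, G P ∧ P.card = c) → c ≤ Fintype.card α := by
    rintro c ⟨P, hP, rfl⟩
    exact hbound P hP
  obtain ⟨P, hP, hPc⟩ := Nat.findGreatest_spec (P := fun c => ∃ P, G P ∧ P.card = c)
    (hb 0 ⟨∅, ⟨by simp, by simp⟩, rfl⟩) ⟨∅, ⟨by simp, by simp⟩, rfl⟩
  refine ⟨P, hP.1, hP.2, fun t ht => ?_⟩
  by_contra hcon
  push Not at hcon
  have htP : t ∉ P := by
    intro h
    exact hcon t h ⟨0, hn⟩ ⟨0, hn⟩ rfl
  have hG : G (insert t P) := by
    refine ⟨?_, ?_⟩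
    · intro x hx
      rcases Finset.mem_insert.1 hx with rfl | hx
      · exact ht
      · exact hP.1 x hx
    · intro x hx y hy i i' hxy
      rcases Finset.mem_insert.1 hx with h1 | h1 <;> rcases Finset.mem_insert.1 hy with h2 | h2
      · subst h1 h2
        exact ⟨rfl, hS _ ht hxy⟩
      · subst h1
        exact absurd hxy (hcon y h2 i i')
      · subst h2
        exact absurd hxy.symm (hcon x h1 i' i)
      · exact hP.2 x h1 y h2 i i' hxy
  have h1 : (insert t P).card = P.card + 1 := Finset.card_insert_of_notMem htP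
  have h2 : P.card + 1 ≤ Nat.findGreatest (fun c => ∃ P, G P ∧ P.card = c) (Fintype.card α) := by
    refine Nat.le_findGreatest (hb _ ⟨_, hG, h1⟩) ⟨_, hG, h1⟩
  omega

end Pool.Agent.LibSier69
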