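import Mathlib
import Pool.Agent.LibSier69.Defs
import Pool.Agent.LibSier69.Match
import Pool.Agent.LibSier69.Count

namespace Pool.Agent.LibSier69

open MeasureTheory Set Filter Topology
open scoped ENNReal

/-- The probability that the uniform labelling of the initial segments gives the labels `k`
to a `ρ`-null set of tuples is small. -/
theorem unif_null_le {N n : ℕ} (hn : 0 < n) (ρ : Measure (Fin n → X)) {K : ℝ≥0∞} (hK : K ≠ ∞)
    (h1 : 1 / 2 ≤ ρ univ)
    (hmarg : ∀ (i : Fin n) (s : Str N), ρ {x | pre N (x i) = s} ≤ K / 2 ^ L N)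
    (hinj : ρ {x | ¬ Function.Injective (fun i => pre N (x i))} = 0) (k : Fin n → Fin (B N)) :
    unif N {u | ρ {x | ∀ i, u (pre N (x i)) = k i} = 0} ≤
      2 * (n : ℝ≥0∞) ^ 2 * K * (B N : ℝ≥0∞) ^ n / 2 ^ L N := by
  classical
  set box : (Fin n → Str N) → Set (Fin n → X) := fun s => {x | ∀ i, pre N (x i) = s i} with hbox
  set G : Set (Fin n → Str N) := {s | Function.Injective s ∧ ρ (box s) ≠ 0} with hG
  obtain ⟨P, hP1, hP2, hP3⟩ := exists_matching hn (id : Str N → Str N) G (fun t ht => ht.1)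
  -- almost every tuple meets an entry of the matching
  have hcover : ρ univ ≤ ∑ i : Fin n, ∑ p ∈ P, ∑ i' : Fin n, ρ {x | pre N (x i) = p i'} := by
    have hnull : ρ ({x | ¬ Function.Injective (fun i => pre N (x i))} ∪
        ⋃ s ∈ {s : Fin n → Str N | ρ (box s) = 0}, box s) = 0 := by
      rw [measure_union_null_iff]
      refine ⟨hinj, ?_⟩
      rw [measure_biUnion_null_iff (Set.to_countable _)]
      intro s hs
      exact hs
    have hsub : (univ : Set (Fin n → X)) ⊆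
        ({x | ¬ Function.Injective (fun i => pre N (x i))} ∪
          ⋃ s ∈ {s : Fin n → Str N | ρ (box s) = 0}, box s) ∪
        ⋃ i : Fin n, ⋃ p ∈ P, ⋃ i' : Fin n, {x | pre N (x i) = p i'} := by
      intro x _
      by_cases hx : (fun i => pre N (x i)) ∈ G
      · right
        obtain ⟨p, hp, i, i', hii⟩ := hP3 _ hx
        simp only [mem_iUnion]
        exact ⟨i, p, hp, i', hii⟩
      · left
        by_cases hi : Function.Injective (fun i => pre N (x i))
        · right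
          have h0 : ρ (box fun i => pre N (x i)) = 0 := by
            by_contra hne
            exact hx ⟨hi, hne⟩
          simp only [mem_iUnion]
          exact ⟨fun i => pre N (x i), h0, fun i => rfl⟩
        · left
          exact hi
    calc ρ univ ≤ _ := measure_mono hsub
      _ ≤ _ := measure_union_le _ _
      _ = ρ (⋃ i : Fin n, ⋃ p ∈ P, ⋃ i' : Fin n, {x | pre N (x i) = p i'}) := by
        rw [hnull, zero_add]
      _ ≤ ∑ i : Fin n, ρ (⋃ p ∈ P, ⋃ i' : Fin n, {x | pre N (x i) = p i'}) :=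
        measure_iUnion_fintype_le _ _
      _ ≤ _ := by
        gcongr with i _
        refine (measure_biUnion_finset_le _ _).trans ?_
        gcongr with p _
        exact measure_iUnion_fintype_le _ _
  have hcard : 1 / 2 ≤ (n : ℝ≥0∞) * ((P.card : ℝ≥0∞) * ((n : ℝ≥0∞) * (K / 2 ^ L N))) := by
    refine h1.trans (hcover.trans ?_)
    calc _ ≤ ∑ _i : Fin n, ∑ _p ∈ P, ∑ _i' : Fin n, K / 2 ^ L N := by
          gcongr with i _ p _ i' _
          exact hmarg i _
      _ = _ := by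
          simp only [Finset.sum_const, Finset.card_univ, Fintype.card_fin, nsmul_eq_mul]
  have hsub2 : {u : Val N | ρ {x | ∀ i, u (pre N (x i)) = k i} = 0} ⊆
      {u | ∀ s ∈ P, ∃ i, u (s i) ≠ k i} := by
    intro u hu s hs
    by_contra hcon
    push Not at hcon
    apply (hP1 s hs).2
    refine measure_mono_null ?_ hu
    intro x hx i
    rw [hx i]
    exact hcon i
  refine (measure_mono hsub2).trans ((unif_avoid_le P hP2 k).trans ?_)
  have hL0 : (2 : ℝ≥0∞) ^ L N ≠ 0 := by positivity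
  have hLt : (2 : ℝ≥0∞) ^ L N ≠ ∞ := by finiteness
  have hP0 : (P.card : ℝ≥0∞) ≠ 0 := by
    intro h0
    rw [h0] at hcard
    simp at hcard
  rw [ENNReal.div_le_iff hP0 (ENNReal.natCast_ne_top _), ← ENNReal.mul_div_right_comm,
    ENNReal.le_div_iff_mul_le (Or.inl hL0) (Or.inl hLt)]
  have h2 : (2 : ℝ≥0∞) ^ L N ≤ 2 * (n : ℝ≥0∞) ^ 2 * K * P.card := by
    have h3 : (2 : ℝ≥0∞) * 2 ^ L N * (1 / 2) ≤ 2 * 2 ^ L N *
        ((n : ℝ≥0∞) * ((P.card : ℝ≥0∞) * ((n : ℝ≥0∞) * (K / 2 ^ L N)))) := by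
      gcongr
    have h4 : (2 : ℝ≥0∞) * 2 ^ L N * (1 / 2) = 2 ^ L N := by
      rw [mul_right_comm, mul_one_div, ENNReal.div_self (by norm_num) (by norm_num), one_mul]
    have h5 : (2 : ℝ≥0∞) * 2 ^ L N *
        ((n : ℝ≥0∞) * ((P.card : ℝ≥0∞) * ((n : ℝ≥0∞) * (K / 2 ^ L N)))) =
        2 * (n : ℝ≥0∞) ^ 2 * K * P.card := by
      have h6 : (2 : ℝ≥0∞) ^ L N * (K / 2 ^ L N) = K := ENNReal.mul_div_cancel hL0 hLt
      calc _ = 2 * (n : ℝ≥0∞) ^ 2 * (2 ^ L N * (K / 2 ^ L N)) * P.card := by ring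
        _ = _ := by rw [h6]
    rwa [h4, h5] at h3
  calc (B N : ℝ≥0∞) ^ n * 2 ^ L N ≤ (B N : ℝ≥0∞) ^ n * (2 * (n : ℝ≥0∞) ^ 2 * K * P.card) := by
        gcongr
    _ = _ := by ring

end Pool.Agent.LibSier69
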