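import Mathlib
import Pool.Agent.LibSier69.Defs

/-!
# The total proportion of hit initial segments is finite almost surely
-/

namespace Pool.Agent.LibSier69

open MeasureTheory Set Filter Topology
open scoped ENNReal

theorem unif_eq_pi (j : ℕ) : unif j = Measure.pi (fun _ : Str j =>
    (ProbabilityTheory.uniformOn Set.univ : Measure (Fin (B j)))) := by
  unfold unif
  rw [← ProbabilityTheory.uniformOn_pi]
  simp

/-- The probability that a given initial segment is hit. -/
theorem unif_le (j : ℕ) (s : Str j) :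
    unif j {u | (u s : ℕ) ≤ j} = ((j + 1 : ℕ) : ℝ≥0∞) / (B j : ℝ≥0∞) := by
  classical
  rw [unif_eq_pi]
  have h := measurePreserving_eval (fun _ : Str j =>
    (ProbabilityTheory.uniformOn Set.univ : Measure (Fin (B j)))) s
  have h2 := h.measure_preimage (s := {v : Fin (B j) | (v : ℕ) ≤ j})
    MeasurableSet.of_discrete.nullMeasurableSet
  refine h2.trans ?_
  rw [ProbabilityTheory.uniformOn_univ, Fintype.card_fin]
  congr 1
  have h3 : {v : Fin (B j) | (v : ℕ) ≤ j} = (Finset.Iic (⟨j, lt_B j⟩ : Fin (B j)) : Set _) := by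
    ext v
    simp [Fin.le_def]
  rw [h3, Measure.count_apply_finset]
  simp

theorem measurable_hf (j : ℕ) : Measurable (fun z : Om => hf j (z j)) :=
  (Measurable.of_discrete (f := hf j)).comp (measurable_pi_apply j)

theorem lintegral_hf (j : ℕ) : ∫⁻ z, hf j (z j) ∂muOm = ((j + 1 : ℕ) : ℝ≥0∞) / (B j : ℝ≥0∞) := by
  classical
  have h0 : MeasurePreserving (Function.eval j) muOm (unif j) :=
    measurePreserving_eval_infinitePi unif j
  have h1 : ∫⁻ z, hf j (z j) ∂muOm = ∫⁻ u, hf j u ∂unif j :=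
    h0.lintegral_comp (Measurable.of_discrete (f := hf j))
  rw [h1]
  have h2 : ∀ u : Val j, hf j u =
      ∑ s : Str j, ({u : Val j | (u s : ℕ) ≤ j}.indicator (fun _ => (1 : ℝ≥0∞)) u) / 2 ^ L j := by
    intro u
    unfold hf hitSet
    rw [Finset.card_filter]
    push_cast
    rw [ENNReal.div_eq_inv_mul, Finset.mul_sum]
    refine Finset.sum_congr rfl (fun s _ => ?_)
    rw [ENNReal.div_eq_inv_mul]
    congr 1
    simp [Set.indicator_apply]
  simp_rw [h2]
  rw [lintegral_finsetSum _ (fun s _ => Measurable.of_discrete)]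
  have h3 : ∀ s : Str j, ∫⁻ u, ({u : Val j | (u s : ℕ) ≤ j}.indicator
      (fun _ => (1 : ℝ≥0∞)) u) / 2 ^ L j ∂unif j =
        (((j + 1 : ℕ) : ℝ≥0∞) / (B j : ℝ≥0∞)) / 2 ^ L j := by
    intro s
    simp_rw [div_eq_mul_inv]
    rw [lintegral_mul_const _ Measurable.of_discrete, lintegral_indicator MeasurableSet.of_discrete,
      lintegral_one, Measure.restrict_apply_univ, unif_le, div_eq_mul_inv]
  simp_rw [h3]
  rw [Finset.sum_const, Finset.card_univ]
  simp only [Fintype.card_pi, Fintype.card_bool, Finset.prod_const, Finset.card_univ,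
    Fintype.card_fin, nsmul_eq_mul]
  push_cast
  rw [ENNReal.mul_div_cancel (by positivity) (by finiteness)]

theorem lintegral_hf_le (j : ℕ) : ∫⁻ z, hf j (z j) ∂muOm ≤ (1 / 2) ^ j := by
  rw [lintegral_hf]
  have h : (j + 1) * 2 ^ j ≤ B j := by
    unfold B
    have h1 : j + 1 ≤ 2 ^ (j + 1) := Nat.lt_two_pow_self.le
    have h2 : (4 : ℕ) ^ (j + 1) = 2 ^ (j + 1) * 2 ^ (j + 1) := by
      rw [← mul_pow]
      norm_num
    rw [h2]
    exact Nat.mul_le_mul h1 (Nat.pow_le_pow_right (by norm_num) (Nat.le_succ j))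
  rw [ENNReal.div_le_iff (by simp [(B_pos j).ne']) (by simp)]
  have h3 : ((j + 1 : ℕ) : ℝ≥0∞) * 2 ^ j ≤ (B j : ℝ≥0∞) := by exact_mod_cast h
  calc ((j + 1 : ℕ) : ℝ≥0∞) = (1 / 2) ^ j * (((j + 1 : ℕ) : ℝ≥0∞) * 2 ^ j) := by
        rw [mul_comm, mul_assoc, ← mul_pow, ENNReal.mul_div_cancel (by norm_num) (by norm_num),
          one_pow, mul_one]
    _ ≤ (1 / 2) ^ j * (B j : ℝ≥0∞) := by gcongr

theorem tsum_lintegral_ne_top : ∑' j, ∫⁻ z, hf j (z j) ∂muOm ≠ ∞ := by
  refine ne_top_of_le_ne_top ?_ (ENNReal.tsum_le_tsum lintegral_hf_le)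
  rw [ENNReal.tsum_geometric]
  norm_num

theorem ae_Om0 : ∀ᵐ z ∂muOm, z ∈ Om0 := by
  have h : ∫⁻ z, ∑' j, hf j (z j) ∂muOm ≠ ∞ := by
    rw [lintegral_tsum (fun j => (measurable_hf j).aemeasurable)]
    exact tsum_lintegral_ne_top
  filter_upwards [ae_lt_top (Measurable.tsum (fun j => measurable_hf j)) h] with z hz
  exact hz.ne

theorem measurable_eta (N : ℕ) : Measurable (eta N) := by
  unfold eta
  exact Measurable.tsum (fun j => measurable_hf _)

theorem tendsto_lintegral_eta : Tendsto (fun N => ∫⁻ z, eta N z ∂muOm) atTop (𝓝 0) := by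
  have h := ENNReal.tendsto_sum_nat_add (fun j => ∫⁻ z, hf j (z j) ∂muOm) tsum_lintegral_ne_top
  refine (h.comp (tendsto_add_atTop_nat 1)).congr (fun N => ?_)
  unfold eta
  rw [lintegral_tsum (fun j => (measurable_hf _).aemeasurable)]
  rfl

end Pool.Agent.LibSier69
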