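import Mathlib
import Pool.Agent.LibSier69.Defs

namespace Pool.Agent.LibSier69

open MeasureTheory Set Filter Topology
open scoped ENNReal

theorem measurable_update_pair (N : ℕ) :
    Measurable (fun p : Val N × Om => Function.update p.2 N p.1) := by
  refine measurable_pi_lambda _ (fun j => ?_)
  by_cases h : j = N
  · subst h
    simpa using measurable_fst
  · simp only [Function.update_of_ne h]
    exact (measurable_pi_apply j).comp measurable_snd

/-- Resampling the stage `N` function keeps the measure. -/
theorem map_update (N : ℕ) :
    Measure.map (fun p : Val N × Om => Function.update p.2 N p.1) ((unif N).prod muOm) = muOm := by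
  classical
  refine Measure.eq_infinitePi _ (fun s t ht => ?_)
  rw [Measure.map_apply (measurable_update_pair N)
    (MeasurableSet.pi s.countable_toSet (fun i _ => ht i))]
  have h : (fun p : Val N × Om => Function.update p.2 N p.1) ⁻¹' (Set.pi s t) =
      (if N ∈ s then t N else univ) ×ˢ Set.pi (s.erase N) t := by
    ext ⟨u, z⟩
    simp only [mem_preimage, Set.mem_pi, Finset.mem_coe, mem_prod, Finset.mem_erase]
    constructor
    · intro h
      refine ⟨?_, fun j hj => ?_⟩
      · split_ifs with hN
        · simpa using h N hN
        · trivial
      · simpa [Function.update_of_ne hj.1] using h j hj.2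
    · rintro ⟨h1, h2⟩ j hj
      by_cases hjN : j = N
      · subst hjN
        simpa [hj] using h1
      · rw [Function.update_of_ne hjN]
        exact h2 j ⟨hjN, hj⟩
  rw [h, Measure.prod_prod]
  unfold muOm
  rw [Measure.infinitePi_pi _ (fun i _ => ht i)]
  by_cases hN : N ∈ s
  · rw [if_pos hN, Finset.mul_prod_erase s (fun i => unif i (t i)) hN]
  · rw [if_neg hN, measure_univ, one_mul, Finset.erase_eq_of_notMem hN]

end Pool.Agent.LibSier69
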