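import Mathlib
import Pool.Agent.LibSier69.Defs
import Pool.Agent.LibSier69.D1
import Pool.Agent.LibSier69.Upd
import Pool.Agent.LibSier69.Hf

/-!
# Lemma D: almost every `z` gives the labels `k` to a set of positive measure
-/

namespace Pool.Agent.LibSier69

open MeasureTheory Set Filter Topology
open scoped ENNReal

namespace AG

lemma meas_pre (j : ℕ) : Measurable (pre j) :=
  measurable_pi_lambda _ fun _ => measurable_pi_apply _

lemma meas_ev {n : ℕ} (j : ℕ) (i : Fin n) :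
    Measurable (fun p : Om × (Fin n → X) => (p.1 j (pre j (p.2 i)) : ℕ)) := by
  have h1 : Measurable (fun p : Om × (Fin n → X) => (p.1 j, pre j (p.2 i))) :=
    ((measurable_pi_apply j).comp measurable_fst).prodMk
      ((meas_pre j).comp ((measurable_pi_apply i).comp measurable_snd))
  have h2 : Measurable (fun q : Val j × Str j => (q.1 q.2 : ℕ)) := measurable_of_countable _
  exact h2.comp h1

lemma meas_final {n : ℕ} (k : Fin n → ℕ) (N : ℕ) :
    MeasurableSet {p : Om × (Fin n → X) | ∀ i, Final p.1 (p.2 i) N (k i)} := by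
  have e : {p : Om × (Fin n → X) | ∀ i, Final p.1 (p.2 i) N (k i)} =
      ⋂ i, ({p | (p.1 N (pre N (p.2 i)) : ℕ) = k i} ∩ ({_p | k i ≤ N} ∩
        ⋂ j, ⋂ (_ : N < j), {p | (p.1 j (pre j (p.2 i)) : ℕ) ≤ j}ᶜ)) := by
    ext p
    simp only [mem_ofPred_eq, Final, Hit, mem_iInter, mem_inter_iff, mem_compl_iff]
  rw [e]
  refine MeasurableSet.iInter fun i => ?_
  refine MeasurableSet.inter (meas_ev N i (measurableSet_singleton _)) (MeasurableSet.inter ?_ ?_)
  · exact MeasurableSet.const _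
  · refine MeasurableSet.iInter fun j => MeasurableSet.iInter fun _ => MeasurableSet.compl ?_
    exact meas_ev j i measurableSet_Iic

lemma meas_hf (j : ℕ) : Measurable (fun z : Om => hf j (z j)) := by
  have h : Measurable (hf j) := measurable_of_countable _
  exact h.comp (measurable_pi_apply j)

lemma meas_eta (N : ℕ) : Measurable (eta N) := by
  unfold eta
  exact Measurable.tsum fun j => meas_hf _

lemma meas_nu {n : ℕ} (ν : Measure (Fin n → X)) [IsProbabilityMeasure ν] (k : Fin n → ℕ) (N : ℕ) :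
    Measurable (fun z : Om => ν {x | ∀ i, Final z (x i) N (k i)}) :=
  measurable_measure_prodMk_left (meas_final k N)

/-- The tuples hit after stage `N`. -/
def Later {n : ℕ} (N : ℕ) (z : Om) : Set (Fin n → X) := {x | ∃ i, ∃ j, N < j ∧ Hit j z (x i)}

lemma later_le {n : ℕ} (ν : Measure (Fin n → X)) {K : ℝ≥0∞}
    (hmarg : ∀ (j : ℕ) (i : Fin n) (s : Str j), ν {x | pre j (x i) = s} ≤ K / 2 ^ L j) (N : ℕ)
    (z : Om) : ν (Later N z) ≤ n * K * eta N z := by
  have h1 : (Later N z : Set (Fin n → X)) ⊆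
      ⋃ i, ⋃ j, ⋃ s ∈ hitSet (j + (N + 1)) (z (j + (N + 1))), {x | pre (j + (N + 1)) (x i) = s} := by
    rintro x ⟨i, j, hj, hx⟩
    obtain ⟨j', rfl⟩ : ∃ j', j = j' + (N + 1) := ⟨j - (N + 1), by omega⟩
    simp only [mem_iUnion]
    refine ⟨i, j', pre (j' + (N + 1)) (x i), ?_, rfl⟩
    exact Finset.mem_filter.mpr ⟨Finset.mem_univ _, hx⟩
  have h2 : ∀ (i : Fin n) (j : ℕ),
      ν (⋃ s ∈ hitSet (j + (N + 1)) (z (j + (N + 1))), {x | pre (j + (N + 1)) (x i) = s}) ≤
        K * hf (j + (N + 1)) (z (j + (N + 1))) := by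
    intro i j
    refine (measure_biUnion_finset_le _ _).trans ?_
    refine (Finset.sum_le_card_nsmul _ _ _ fun s _ => hmarg (j + (N + 1)) i s).trans ?_
    unfold hf
    rw [nsmul_eq_mul, div_eq_mul_inv, div_eq_mul_inv]
    exact le_of_eq (by ring)
  calc ν (Later N z) ≤ ν (⋃ i, ⋃ j, ⋃ s ∈ hitSet (j + (N + 1)) (z (j + (N + 1))),
        {x | pre (j + (N + 1)) (x i) = s}) := measure_mono h1
    _ ≤ ∑' i : Fin n, ν (⋃ j, ⋃ s ∈ hitSet (j + (N + 1)) (z (j + (N + 1))),
        {x | pre (j + (N + 1)) (x i) = s}) := measure_iUnion_le _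
    _ ≤ ∑' _i : Fin n, ∑' j, K * hf (j + (N + 1)) (z (j + (N + 1))) := by
        refine ENNReal.tsum_le_tsum fun i => (measure_iUnion_le _).trans ?_
        exact ENNReal.tsum_le_tsum fun j => h2 i j
    _ = n * K * eta N z := by
        unfold eta
        rw [tsum_fintype, Finset.sum_const, Finset.card_univ, Fintype.card_fin, nsmul_eq_mul,
          ENNReal.tsum_mul_left, mul_assoc]

lemma eta_update (N : ℕ) (z : Om) (u : Val N) : eta N (Function.update z N u) = eta N z := by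
  unfold eta
  refine tsum_congr fun j => ?_
  rw [Function.update_of_ne (by omega)]

lemma final_update {N : ℕ} {z : Om} {u : Val N} {x : X} {k : ℕ} (hk : k ≤ N) :
    Final (Function.update z N u) x N k ↔ (u (pre N x) : ℕ) = k ∧ ∀ j, N < j → ¬ Hit j z x := by
  unfold Final
  rw [Function.update_self]
  have h : ∀ j, N < j → (Hit j (Function.update z N u) x ↔ Hit j z x) := by
    intro j hj
    unfold Hit
    rw [Function.update_of_ne (by omega)]
  constructor
  · rintro ⟨h1, _, h3⟩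
    exact ⟨h1, fun j hj hx => h3 j hj ((h j hj).mpr hx)⟩
  · rintro ⟨h1, h3⟩
    exact ⟨h1, hk, fun j hj hx => h3 j hj ((h j hj).mp hx)⟩

lemma meas_later {n : ℕ} (N : ℕ) (z : Om) : MeasurableSet (Later N z : Set (Fin n → X)) := by
  have e : (Later N z : Set (Fin n → X)) = ⋃ i, ⋃ j, ⋃ (_ : N < j), {x | (z j (pre j (x i)) : ℕ) ≤ j} := by
    ext x
    simp only [Later, Hit, mem_ofPred_eq, mem_iUnion, exists_prop]
  rw [e]
  refine MeasurableSet.iUnion fun i => MeasurableSet.iUnion fun j => MeasurableSet.iUnion fun _ => ?_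
  have h1 : Measurable (fun x : Fin n → X => pre j (x i)) := (meas_pre j).comp (measurable_pi_apply i)
  have h2 : Measurable (fun s : Str j => (z j s : ℕ)) := measurable_of_countable _
  exact (h2.comp h1) measurableSet_Iic

/-- The estimate for a single stage. -/
lemma stage {n m : ℕ} (hn : 0 < n) (ν : Measure (Fin n → X)) [IsProbabilityMeasure ν]
    {K : ℝ≥0∞} (hK : K ≠ ∞)
    (hmarg : ∀ (j : ℕ) (i : Fin n) (s : Str j), ν {x | pre j (x i) = s} ≤ K / 2 ^ L j)
    (hinj : ν {x | ¬ Function.Injective (fun i => pre m (x i))} = 0) (k : Fin n → ℕ)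
    {N : ℕ} (hm : m ≤ N) (hk : ∀ i, k i ≤ N) :
    muOm ({z | ν {x | ∀ i, Final z (x i) N (k i)} = 0} ∩ {z | n * K * eta N z ≤ 1 / 2}) ≤
      2 * (n : ℝ≥0∞) ^ 2 * K * (B N : ℝ≥0∞) ^ n / 2 ^ L N := by
  set S : Set Om := {z | ν {x | ∀ i, Final z (x i) N (k i)} = 0} ∩ {z | n * K * eta N z ≤ 1 / 2} with hS
  set bd : ℝ≥0∞ := 2 * (n : ℝ≥0∞) ^ 2 * K * (B N : ℝ≥0∞) ^ n / 2 ^ L N with hbd
  have mS : MeasurableSet S :=
    (meas_nu ν k N (measurableSet_singleton 0)).inter
      (((meas_eta N).const_mul (n * K)) measurableSet_Iic)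
  have mu : Measurable (fun p : Val N × Om => Function.update p.2 N p.1) := by
    refine measurable_pi_lambda _ fun j => ?_
    rcases eq_or_ne j N with rfl | hj
    · simp only [Function.update_self]
      exact measurable_fst
    · simp only [Function.update_of_ne hj]
      exact (measurable_pi_apply j).comp measurable_snd
  have e1 : muOm S = ∫⁻ z, unif N {u | Function.update z N u ∈ S} ∂muOm := by
    conv_lhs => rw [← map_update N]
    rw [Measure.map_apply mu mS, Measure.prod_apply_symm (mu mS)]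
    rfl
  rw [e1]
  have h1 : ∀ z, unif N {u | Function.update z N u ∈ S} ≤ bd := by
    intro z
    by_cases hz : n * K * eta N z ≤ 1 / 2
    · have hk' : ∀ i, k i < B N := fun i => (hk i).trans_lt (lt_B N)
      set ρ : Measure (Fin n → X) := ν.restrict (Later N z)ᶜ with hρ
      have hρle : ρ ≤ ν := Measure.restrict_le_self
      have hl : ν (Later N z) ≤ 1 / 2 := (later_le ν hmarg N z).trans hz
      have h1 : 1 / 2 ≤ ρ univ := by
        rw [hρ, Measure.restrict_apply_univ, prob_compl_eq_one_sub (meas_later N z)]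
        refine le_trans (le_of_eq ?_) (tsub_le_tsub_left hl 1)
        rw [one_div, ENNReal.one_sub_inv_two]
      have hb := unif_null_le hn ρ hK h1 (fun i s => (hρle _).trans (hmarg N i s))
        (by
          refine le_antisymm ((hρle _).trans ?_) zero_le
          refine (measure_mono ?_).trans hinj.le
          intro x hx hx'
          apply hx
          intro i i' hii
          exact hx' (pre_of_pre hm hii)) (fun i => ⟨k i, hk' i⟩)
      refine (measure_mono ?_).trans hb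
      intro u hu
      have hu1 := hu.1
      simp only [mem_ofPred_eq] at hu1 ⊢
      rw [hρ, Measure.restrict_apply' (meas_later N z).compl]
      refine le_antisymm ((measure_mono ?_).trans hu1.le) zero_le
      rintro x ⟨hx1, hx2⟩ i
      rw [final_update (hk i)]
      refine ⟨?_, fun j hj hh => hx2 ⟨i, j, hj, hh⟩⟩
      have := hx1 i
      rw [this]
    · have : {u | Function.update z N u ∈ S} = ∅ := by
        rw [eq_empty_iff_forall_notMem]
        intro u hu
        apply hz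
        have := hu.2
        simp only [mem_ofPred_eq] at this
        rwa [eta_update] at this
      rw [this, measure_empty]
      exact zero_le
  calc ∫⁻ z, unif N {u | Function.update z N u ∈ S} ∂muOm ≤ ∫⁻ _z, bd ∂muOm := lintegral_mono h1
    _ = bd := by rw [lintegral_const, measure_univ, mul_one]

lemma tendsto_bd {n : ℕ} {K : ℝ≥0∞} (hK : K ≠ ∞) :
    Tendsto (fun N : ℕ => 2 * (n : ℝ≥0∞) ^ 2 * K * (B N : ℝ≥0∞) ^ n / 2 ^ L N) atTop (𝓝 0) := by
  have hC : 2 * (n : ℝ≥0∞) ^ 2 * K * 2 ^ (4 * n) ≠ ∞ := by finiteness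
  have h1 : Tendsto (fun N : ℕ => (2 * (n : ℝ≥0∞) ^ 2 * K * 2 ^ (4 * n)) * (2⁻¹ : ℝ≥0∞) ^ N) atTop (𝓝 0) := by
    have h2 := ENNReal.Tendsto.const_mul (ENNReal.tendsto_pow_atTop_nhds_zero_of_lt_one
      (by simp : (2⁻¹ : ℝ≥0∞) < 1)) (Or.inr hC)
    simpa using h2
  refine tendsto_of_tendsto_of_tendsto_of_le_of_le' tendsto_const_nhds h1
    (Eventually.of_forall fun _ => zero_le) ?_
  filter_upwards [eventually_ge_atTop (2 * n + 1)] with N hN
  have h2 : (B N : ℝ≥0∞) ^ n = 2 ^ (2 * (N + 1) * n) := by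
    unfold B
    push_cast
    rw [show (4 : ℝ≥0∞) = 2 ^ 2 by norm_num, ← pow_mul, ← pow_mul, mul_assoc]
  have h3 : 2 * (N + 1) * n + N ≤ 4 * n + L N := by
    unfold L
    nlinarith
  have h4 : (B N : ℝ≥0∞) ^ n / 2 ^ L N ≤ 2 ^ (4 * n) * (2⁻¹ : ℝ≥0∞) ^ N := by
    rw [h2, ENNReal.div_le_iff (by positivity) (by finiteness), ← ENNReal.inv_pow]
    have h5 : (2 : ℝ≥0∞) ^ (2 * (N + 1) * n) * 2 ^ N ≤ 2 ^ (4 * n) * 2 ^ L N := by
      rw [← pow_add, ← pow_add]
      exact pow_le_pow_right₀ (by norm_num) h3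
    calc (2 : ℝ≥0∞) ^ (2 * (N + 1) * n) = 2 ^ (2 * (N + 1) * n) * 2 ^ N * (2 ^ N)⁻¹ := by
          rw [mul_assoc (2 ^ (2 * (N + 1) * n) : ℝ≥0∞), ENNReal.mul_inv_cancel (by positivity) (by finiteness),
            mul_one]
      _ ≤ (2 ^ (4 * n) * 2 ^ L N) * (2 ^ N)⁻¹ := by gcongr
      _ = _ := by ring
  calc 2 * (n : ℝ≥0∞) ^ 2 * K * (B N : ℝ≥0∞) ^ n / 2 ^ L N 
      = 2 * (n : ℝ≥0∞) ^ 2 * K * ((B N : ℝ≥0∞) ^ n / 2 ^ L N) := by rw [mul_div_assoc]
    _ ≤ 2 * (n : ℝ≥0∞) ^ 2 * K * (2 ^ (4 * n) * (2⁻¹ : ℝ≥0∞) ^ N) := by gcongr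
    _ = _ := by ring

end AG

open AG in
/-- Almost every `z` gives the labels `k` to a set of tuples of positive measure. -/
theorem ae_good {n m : ℕ} (hn : 0 < n) (ν : Measure (Fin n → X)) [IsProbabilityMeasure ν]
    {K : ℝ≥0∞} (hK : K ≠ ∞)
    (hmarg : ∀ (j : ℕ) (i : Fin n) (s : Str j), ν {x | pre j (x i) = s} ≤ K / 2 ^ L j)
    (hinj : ν {x | ¬ Function.Injective (fun i => pre m (x i))} = 0) (k : Fin n → ℕ) :
    ∀ᵐ z ∂muOm, ∃ N, 0 < ν {x | ∀ i, Final z (x i) N (k i)} := by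
  have hc : (n : ℝ≥0∞) * K ≠ ∞ := by finiteness
  set bd : ℕ → ℝ≥0∞ := fun N => 2 * (n : ℝ≥0∞) ^ 2 * K * (B N : ℝ≥0∞) ^ n / 2 ^ L N with hbd
  have t1 : Tendsto (fun N => bd N + 2 * (n * K) * ∫⁻ z, eta N z ∂muOm) atTop (𝓝 0) := by
    have h2 := ENNReal.Tendsto.const_mul tendsto_lintegral_eta
      (Or.inr (by finiteness : 2 * ((n : ℝ≥0∞) * K) ≠ ∞))
    rw [mul_zero] at h2
    simpa using (tendsto_bd hK).add h2
  rw [ae_iff]
  refine le_antisymm (ge_of_tendsto t1 ?_) zero_le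
  obtain ⟨k0, hk0⟩ : ∃ k0, ∀ i, k i ≤ k0 := ⟨Finset.univ.sup k, fun i => Finset.le_sup (Finset.mem_univ i)⟩
  filter_upwards [eventually_ge_atTop (max m k0)] with N hN
  have hm : m ≤ N := (le_max_left _ _).trans hN
  have hk : ∀ i, k i ≤ N := fun i => (hk0 i).trans ((le_max_right _ _).trans hN)
  have hsub : {z | ¬ ∃ N, 0 < ν {x | ∀ i, Final z (x i) N (k i)}} ⊆
      ({z | ν {x | ∀ i, Final z (x i) N (k i)} = 0} ∩ {z | n * K * eta N z ≤ 1 / 2}) ∪
        {z | 1 / 2 ≤ n * K * eta N z} := by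
    intro z hz
    rw [mem_ofPred_eq, not_exists] at hz
    rcases le_total (n * K * eta N z) (1 / 2) with h | h
    · left
      refine ⟨?_, h⟩
      have := hz N
      simpa using this
    · right; exact h
  refine (measure_mono hsub).trans ((measure_union_le _ _).trans ?_)
  refine add_le_add (stage hn ν hK hmarg hinj k hm hk) ?_
  have h3 := mul_meas_ge_le_lintegral (μ := muOm) ((meas_eta N).const_mul (n * K)) (1 / 2)
  rw [lintegral_const_mul _ (meas_eta N)] at h3
  calc muOm {z | 1 / 2 ≤ n * K * eta N z} = 2 * (1 / 2 * muOm {z | 1 / 2 ≤ n * K * eta N z}) := by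
        rw [← mul_assoc, one_div, ENNReal.mul_inv_cancel (by norm_num) (by norm_num), one_mul]
    _ ≤ 2 * (n * K * ∫⁻ z, eta N z ∂muOm) := by gcongr
    _ = _ := by ring

end Pool.Agent.LibSier69
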