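import Mathlib
import Pool.Agent.LibSier69.Defs

/-!
# Limits of uniform measures on maximal matchings (task E)
-/

namespace Pool.Agent.LibSier69

open MeasureTheory Set Filter Topology
open scoped ENNReal

section Limit

variable {n : ℕ}

/-- Normalised counting measure on a finite set of tuples. -/
noncomputable def unifP (P : Finset (Fin n → X)) : Measure (Fin n → X) :=
  (P.card : ℝ≥0∞)⁻¹ • ∑ x ∈ P, Measure.dirac x

open Classical in
theorem unifP_apply (P : Finset (Fin n → X)) (A : Set (Fin n → X)) :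
    unifP P A = ((P.filter (· ∈ A)).card : ℝ≥0∞) / P.card := by
  unfold unifP
  rw [Measure.smul_apply, Measure.finsetSum_apply, smul_eq_mul, mul_comm, div_eq_mul_inv]
  congr 1
  rw [Finset.card_filter]
  push_cast
  refine Finset.sum_congr rfl fun x _ => ?_
  rw [Measure.dirac_apply]
  simp [Set.indicator_apply]

theorem unifP_zero {P : Finset (Fin n → X)} {A : Set (Fin n → X)} (h : ∀ x ∈ P, x ∉ A) :
    unifP P A = 0 := by
  classical
  rw [unifP_apply, Finset.filter_false_of_mem h]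
  simp

theorem unifP_prob {P : Finset (Fin n → X)} (hP : P.card ≠ 0) :
    IsProbabilityMeasure (unifP P) := by
  classical
  constructor
  rw [unifP_apply]
  simp only [mem_univ, Finset.filter_true]
  exact ENNReal.div_self (by exact_mod_cast hP) (ENNReal.natCast_ne_top _)

theorem continuous_pre (j : ℕ) : Continuous (pre j) :=
  continuous_pi fun i => continuous_apply (i : ℕ)

/-- Sets depending on prefixes only are clopen. -/
theorem isClopen_of_pre (j : ℕ) {S : Set (Fin n → X)}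
    (hS : ∀ x y : Fin n → X, (∀ i, pre j (x i) = pre j (y i)) → x ∈ S → y ∈ S) :
    IsClopen S := by
  have hc : Continuous (fun (x : Fin n → X) (i : Fin n) => pre j (x i)) :=
    continuous_pi fun i => (continuous_pre j).comp (continuous_apply i)
  have : S = (fun (x : Fin n → X) (i : Fin n) => pre j (x i)) ⁻¹'
      ((fun (x : Fin n → X) (i : Fin n) => pre j (x i)) '' S) := by
    apply Subset.antisymm (subset_preimage_image _ _)
    rintro y ⟨x, hx, hxy⟩
    exact hS x y (fun i => congrFun hxy i) hx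
  rw [this]
  exact (isClopen_discrete _).preimage hc

theorem isClopen_pre (j : ℕ) (i : Fin n) (s : Str j) :
    IsClopen {x : Fin n → X | pre j (x i) = s} :=
  isClopen_of_pre j fun _ _ h hx => (h i).symm.trans hx

theorem isClopen_notInj (m : ℕ) :
    IsClopen {x : Fin n → X | ¬ Function.Injective (fun i => pre m (x i))} := by
  refine isClopen_of_pre m fun _ _ h hx hy => hx ?_
  rwa [funext h]

theorem lab_congr {z : Om} {x y : X} {N k : ℕ} (h : pre N x = pre N y) (hx : Lab z x N k) :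
    Lab z y N k := by
  obtain ⟨M, hM, h1, h2, h3⟩ := hx
  refine ⟨M, hM, ?_, h2, fun j hj hjN hh => h3 j hj hjN ?_⟩
  · rw [← pre_of_pre hM h]; exact h1
  · unfold Hit at hh ⊢
    rw [pre_of_pre hjN h]; exact hh

theorem isClopen_lab (z : Om) (j : ℕ) (k : Fin n → ℕ) :
    IsClopen {x : Fin n → X | ∀ i, Lab z (x i) j (k i)} :=
  isClopen_of_pre j fun _ _ h hx i => lab_congr (h i) (hx i)

open Classical in
/-- Few points of a matching extend a given prefix. -/
theorem card_ext_le {N : ℕ} {P : Finset (Fin n → X)} {i : Fin n}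
    (hP : ∀ x ∈ P, ∀ y ∈ P, pre N (x i) = pre N (y i) → x = y) {j : ℕ} (hj : j ≤ N)
    (s : Str j) : (P.filter (fun x => pre j (x i) = s)).card ≤ 2 ^ (L N - L j) := by
  have hL : L j ≤ L N := L_mono hj
  have hinj : Set.InjOn (fun (x : Fin n → X) (a : Fin (L N - L j)) => x i (L j + a))
      (P.filter (fun x => pre j (x i) = s) : Set (Fin n → X)) := by
    intro x hx y hy hxy
    simp only [Finset.coe_filter, mem_ofPred_eq] at hx hy
    refine hP x hx.1 y hy.1 ?_
    funext a
    rcases lt_or_ge (a : ℕ) (L j) with h | h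
    · have := congrFun (hx.2.trans hy.2.symm) ⟨a, h⟩
      exact this
    · have := congrFun hxy ⟨a - L j, by omega⟩
      simp only at this
      have e : L j + (a - L j) = a := by omega
      rw [e] at this
      exact this
  have := Finset.card_le_card_of_injOn (s := P.filter (fun x => pre j (x i) = s))
    (t := (Finset.univ : Finset (Fin (L N - L j) → Bool)))
    (fun (x : Fin n → X) (a : Fin (L N - L j)) => x i (L j + a))
    (fun _ _ => Finset.mem_univ _) hinj
  simpa using this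

theorem unifP_pre_le {N : ℕ} {K : ℝ≥0∞} {P : Finset (Fin n → X)} {i : Fin n}
    (hP0 : P.card ≠ 0)
    (hK : (2 : ℝ≥0∞) ^ L N ≤ K * (P.card : ℝ≥0∞))
    (hP : ∀ x ∈ P, ∀ y ∈ P, pre N (x i) = pre N (y i) → x = y) {j : ℕ} (hj : j ≤ N)
    (s : Str j) : unifP P {x | pre j (x i) = s} ≤ K / 2 ^ L j := by
  classical
  rw [unifP_apply]
  have hc : (P.card : ℝ≥0∞) ≠ 0 := by exact_mod_cast hP0
  have hL : L j ≤ L N := L_mono hj
  refine ENNReal.div_le_of_le_mul ?_
  have h1 := card_ext_le hP hj s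
  have h1' : (((P.filter (fun x => pre j (x i) = s)).card : ℕ) : ℝ≥0∞)
      ≤ 2 ^ (L N - L j) := by
    exact_mod_cast h1
  refine le_trans (le_of_eq ?_) (h1'.trans ?_)
  · congr 2
    ext x; simp
  have h2 : (2 : ℝ≥0∞) ^ (L N - L j) = 2 ^ L N / 2 ^ L j := by
    rw [ENNReal.eq_div_iff (by simp) (by simp), ← pow_add]
    congr 1; omega
  rw [h2, ENNReal.div_eq_inv_mul, ENNReal.div_eq_inv_mul, mul_assoc]
  gcongr

theorem unifP_hit_le {N : ℕ} {K : ℝ≥0∞} {P : Finset (Fin n → X)} {i : Fin n}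
    (hP0 : P.card ≠ 0)
    (hK : (2 : ℝ≥0∞) ^ L N ≤ K * (P.card : ℝ≥0∞))
    (hP : ∀ x ∈ P, ∀ y ∈ P, pre N (x i) = pre N (y i) → x = y) {j : ℕ} (hj : j ≤ N)
    (z : Om) : unifP P {x | Hit j z (x i)} ≤ K * hf j (z j) := by
  have hsub : {x : Fin n → X | Hit j z (x i)} ⊆
      ⋃ s ∈ hitSet j (z j), {x : Fin n → X | pre j (x i) = s} := by
    intro x hx
    simp only [mem_iUnion, mem_ofPred_eq]
    exact ⟨pre j (x i), by simpa [hitSet, Hit] using hx, rfl⟩
  calc unifP P {x | Hit j z (x i)}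
      ≤ ∑ s ∈ hitSet j (z j), unifP P {x : Fin n → X | pre j (x i) = s} :=
        (measure_mono hsub).trans (measure_biUnion_finset_le _ _)
    _ ≤ ∑ s ∈ hitSet j (z j), K / 2 ^ L j :=
        Finset.sum_le_sum fun s _ => unifP_pre_le hP0 hK hP hj s
    _ = K * hf j (z j) := by
        rw [Finset.sum_const, nsmul_eq_mul, hf, div_eq_mul_inv, div_eq_mul_inv]
        ring

theorem unifP_lab_le {N : ℕ} {K : ℝ≥0∞} {P : Finset (Fin n → X)} (k : Fin n → ℕ)
    (hP0 : P.card ≠ 0)
    (hK : (2 : ℝ≥0∞) ^ L N ≤ K * (P.card : ℝ≥0∞))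
    (hP : ∀ x ∈ P, ∀ y ∈ P, ∀ i, pre N (x i) = pre N (y i) → x = y) {j : ℕ} (hj : j ≤ N)
    (z : Om) (hz : ∀ x ∈ P, ¬ ∀ i, Lab z (x i) N (k i)) :
    unifP P {x | ∀ i, Lab z (x i) j (k i)} ≤ (n : ℝ≥0∞) * K * eta j z := by
  classical
  have hsupp : unifP P {x | x ∉ P} = 0 := unifP_zero fun x hx h => h hx
  have hsub : {x : Fin n → X | ∀ i, Lab z (x i) j (k i)} ⊆
      {x | x ∉ P} ∪ ⋃ i : Fin n, ⋃ l ∈ Finset.range (N - j),
        {x : Fin n → X | Hit (l + (j + 1)) z (x i)} := by
    intro x hx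
    by_cases hxP : x ∈ P
    · right
      have := hz x hxP
      push Not at this
      obtain ⟨i, hi⟩ := this
      obtain ⟨a, ha1, ha2, ha3⟩ := exists_hit hj (hx i) hi
      simp only [mem_iUnion, mem_ofPred_eq]
      refine ⟨i, a - (j + 1), by simp; omega, ?_⟩
      have e : a - (j + 1) + (j + 1) = a := by omega
      rw [e]; exact ha3
    · left; exact hxP
  calc unifP P {x | ∀ i, Lab z (x i) j (k i)}
      ≤ unifP P {x | x ∉ P} + unifP P (⋃ i : Fin n, ⋃ l ∈ Finset.range (N - j),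
        {x : Fin n → X | Hit (l + (j + 1)) z (x i)}) :=
        (measure_mono hsub).trans (measure_union_le _ _)
    _ = unifP P (⋃ i : Fin n, ⋃ l ∈ Finset.range (N - j),
        {x : Fin n → X | Hit (l + (j + 1)) z (x i)}) := by rw [hsupp, zero_add]
    _ ≤ ∑ i : Fin n, unifP P (⋃ l ∈ Finset.range (N - j),
        {x : Fin n → X | Hit (l + (j + 1)) z (x i)}) := measure_iUnion_fintype_le _ _
    _ ≤ ∑ i : Fin n, ∑ l ∈ Finset.range (N - j),
        unifP P {x : Fin n → X | Hit (l + (j + 1)) z (x i)} :=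
        Finset.sum_le_sum fun i _ => measure_biUnion_finset_le _ _
    _ ≤ ∑ i : Fin n, ∑ l ∈ Finset.range (N - j), K * hf (l + (j + 1)) (z (l + (j + 1))) := by
        refine Finset.sum_le_sum fun i _ => Finset.sum_le_sum fun l hl => ?_
        refine unifP_hit_le hP0 hK (fun x hx y hy => hP x hx y hy i) ?_ z
        simp at hl; omega
    _ ≤ ∑ i : Fin n, K * eta j z := by
        refine Finset.sum_le_sum fun i _ => ?_
        rw [← Finset.mul_sum]
        gcongr
        exact ENNReal.sum_le_tsum _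
    _ = (n : ℝ≥0∞) * K * eta j z := by
        simp [mul_assoc]

/-- A limit of uniform measures on maximal matchings. -/
theorem exists_limit {n m : ℕ} (k : Fin n → ℕ) {K : ℝ≥0∞} (hK : K ≠ ∞) {ι : Type*}
    (z : ι → Om)
    (h : ∀ (D : Finset ι) (N₀ : ℕ), ∃ N ≥ N₀, ∃ P : Finset (Fin n → X),
      (2 : ℝ≥0∞) ^ L N ≤ K * (P.card : ℝ≥0∞) ∧
      (∀ x ∈ P, ∀ y ∈ P, ∀ i i', pre N (x i) = pre N (y i') → x = y ∧ i = i') ∧
      (∀ x ∈ P, Function.Injective (fun i => pre m (x i))) ∧
      (∀ x ∈ P, ∀ y ∈ D, ¬ ∀ i, Lab (z y) (x i) N (k i))) :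
    ∃ ν : Measure (Fin n → X), IsProbabilityMeasure ν ∧
      (∀ (j : ℕ) (i : Fin n) (s : Str j), ν {x | pre j (x i) = s} ≤ K / 2 ^ L j) ∧
      ν {x | ¬ Function.Injective (fun i => pre m (x i))} = 0 ∧
      ∀ y j, ν {x | ∀ i, Lab (z y) (x i) j (k i)} ≤ (n : ℝ≥0∞) * K * eta j (z y) := by
  classical
  choose N hN P hP1 hP2 hP3 hP4 using h
  have hcard : ∀ D N₀, (P D N₀).card ≠ 0 := by
    intro D N₀ h0
    have := hP1 D N₀
    rw [h0] at this
    simp at this
  have hprob : ∀ q : Finset ι × ℕ, IsProbabilityMeasure (unifP (P q.1 q.2)) := fun q =>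
    unifP_prob (hcard q.1 q.2)
  let F : Finset ι × ℕ → ProbabilityMeasure (Fin n → X) := fun q =>
    ⟨unifP (P q.1 q.2), hprob q⟩
  have hF : ∀ q, (F q : Measure (Fin n → X)) = unifP (P q.1 q.2) := fun q => rfl
  let U : Ultrafilter (Finset ι × ℕ) := Ultrafilter.of atTop
  have hU : (U : Filter (Finset ι × ℕ)) ≤ atTop := Ultrafilter.of_le _
  obtain ⟨ν, -, hν⟩ := isCompact_univ.ultrafilter_le_nhds (U.map F) (by simp)
  have hν' : Tendsto F (U : Filter (Finset ι × ℕ)) (𝓝 ν) := hν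
  have key : ∀ (E : Set (Fin n → X)) (c : ℝ≥0∞), IsClopen E →
      (∀ᶠ q in (atTop : Filter (Finset ι × ℕ)), unifP (P q.1 q.2) E ≤ c) →
      (ν : Measure (Fin n → X)) E ≤ c := by
    intro E c hE hev
    have ht := ProbabilityMeasure.tendsto_measure_of_null_frontier_of_tendsto' hν' (E := E)
      (by rw [hE.frontier_eq]; simp)
    exact le_of_tendsto ht (hU hev)
  refine ⟨ν, inferInstance, ?_, ?_, ?_⟩
  · intro j i s
    refine key _ _ (isClopen_pre j i s) ?_
    filter_upwards [eventually_ge_atTop ((∅, j) : Finset ι × ℕ)] with q hq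
    exact unifP_pre_le (hcard _ _) (hP1 _ _)
      (fun x hx y hy hxy => (hP2 _ _ x hx y hy i i hxy).1) (hq.2.trans (hN _ _)) s
  · refine le_antisymm (key _ _ (isClopen_notInj m) ?_) (by simp)
    refine Eventually.of_forall fun q => le_of_eq ?_
    exact unifP_zero fun x hx h => h (hP3 _ _ x hx)
  · intro y j
    refine key _ _ (isClopen_lab (z y) j k) ?_
    filter_upwards [eventually_ge_atTop (({y}, j) : Finset ι × ℕ)] with q hq
    refine unifP_lab_le k (hcard _ _) (hP1 _ _)
      (fun x hx y hy i hxy => (hP2 _ _ x hx y hy i i hxy).1) (hq.2.trans (hN _ _)) (z y) ?_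
    intro x hx
    exact hP4 _ _ x hx y (hq.1 (Finset.mem_singleton_self y))

end Limit

end Pool.Agent.LibSier69
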