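import Mathlib
import Pool.Agent.LibSier69.Defs

/-!
# Measures of initial segments
-/

namespace Pool.Agent.LibSier69

open MeasureTheory Set Filter Topology
open scoped ENNReal

theorem coin_singleton (b : Bool) : coin {b} = 1 / 2 := by
  unfold coin
  rw [ProbabilityTheory.uniformOn_univ]
  simp

theorem muX_pre_eq (N : ℕ) (s : Str N) : muX {x | pre N x = s} = 1 / 2 ^ L N := by
  classical
  have h : {x : X | pre N x = s} = Set.pi (Finset.range (L N))
      (fun i => if h : i < L N then {s ⟨i, h⟩} else univ) := by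
    ext x
    simp only [mem_ofPred_eq, Set.mem_pi, Finset.coe_range, mem_Iio]
    constructor
    · rintro rfl i hi
      simp [hi, pre]
    · intro h
      funext i
      have := h i i.2
      rw [dif_pos i.2] at this
      exact this
  rw [h]
  unfold muX
  rw [Measure.infinitePi_pi]
  · rw [Finset.prod_congr rfl (g := fun _ => (1 / 2 : ℝ≥0∞))]
    · simp [ENNReal.inv_pow]
    · intro i hi
      rw [dif_pos (Finset.mem_range.1 hi), coin_singleton]
  · intro i _
    exact MeasurableSet.of_discrete

theorem muX_pre (N : ℕ) (V : Finset (Str N)) :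
    muX {x | pre N x ∈ V} = (V.card : ℝ≥0∞) / 2 ^ L N := by
  classical
  have h : {x : X | pre N x ∈ V} = ⋃ s ∈ V, {x | pre N x = s} := by
    ext x
    simp
  rw [h, measure_biUnion_finset]
  · simp only [muX_pre_eq, Finset.sum_const, nsmul_eq_mul, mul_one_div]
  · intro s _ t _ hst
    rw [Function.onFun, disjoint_left]
    rintro x hx hx'
    exact hst (hx.symm.trans hx')
  · intro s _
    have : Measurable (pre N) := by
      unfold pre
      fun_prop
    exact this (MeasurableSet.singleton s)

theorem muX_hit (N : ℕ) (z : Om) : muX {x | ∃ j, N < j ∧ Hit j z x} ≤ eta N z := by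
  have h : {x : X | ∃ j, N < j ∧ Hit j z x} ⊆
      ⋃ j, {x | pre (j + (N + 1)) x ∈ hitSet (j + (N + 1)) (z (j + (N + 1)))} := by
    rintro x ⟨j, hj, hx⟩
    obtain ⟨i, rfl⟩ := Nat.exists_eq_add_of_lt hj
    refine mem_iUnion.2 ⟨i, ?_⟩
    have hi : N + i + 1 = i + (N + 1) := by omega
    rw [hi] at hx
    simpa [hitSet, Hit] using hx
  refine (measure_mono h).trans ((measure_iUnion_le _).trans ?_)
  unfold eta
  refine ENNReal.tsum_le_tsum (fun j => ?_)
  rw [muX_pre]
  exact le_rfl

end Pool.Agent.LibSier69
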