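import Mathlib
import Pool.Agent.LibSier69.Defs
import Pool.Agent.LibSier69.Match
import Pool.Agent.LibSier69.Limit
import Pool.Agent.LibSier69.AeGood
import Pool.Agent.LibSier69.MuX

/-!
# Countably many labelings catch all tuples outside a null set
-/

namespace Pool.Agent.LibSier69

open MeasureTheory Set Filter Topology
open scoped ENNReal

/-- The core lemma. -/
theorem core {n m : ℕ} (hn : 0 < n) (k : Fin n → ℕ) {ι : Type*} (z : ι → Om)
    (hz0 : ∀ y, z y ∈ Om0) (hz : muOm (range z) ≠ 0) {ε : ℝ≥0∞} (hε : ε ≠ 0) :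
    ∃ (D : Finset ι) (A : Set X), muX A ≤ ε ∧ ∀ x : Fin n → X,
      Function.Injective (fun i => pre m (x i)) → (∀ i, x i ∉ A) →
      ∃ y ∈ D, ∀ i, ∃ N, Final (z y) (x i) N (k i) := by
  classical
  by_contra hcon
  push Not at hcon
  have hεt : ε ≠ ∞ := by
    rintro rfl
    obtain ⟨x, -, hx, -⟩ := hcon ∅ univ le_top
    exact hx ⟨0, hn⟩ (mem_univ _)
  obtain ⟨K, hKdef⟩ : ∃ K : ℝ≥0∞, K = 2 * n / ε := ⟨_, rfl⟩
  have hK : K ≠ ∞ := by
    rw [hKdef]
    exact ENNReal.div_ne_top (by finiteness) hε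
  obtain ⟨ν, hν, h1, h2, h3⟩ := exists_limit (m := m) k hK z (by
    intro D N₀
    have hlim : Tendsto (fun N => ∑ y ∈ D, eta N (z y)) atTop (𝓝 0) := by
      have := tendsto_finsetSum D (fun y _ => tendsto_eta (hz0 y))
      simpa using this
    obtain ⟨N, hNε, hN0, hNm⟩ : ∃ N, ∑ y ∈ D, eta N (z y) ≤ ε / 2 ∧ N₀ ≤ N ∧ m ≤ N := by
      have h1 : ∀ᶠ N in atTop, ∑ y ∈ D, eta N (z y) < ε / 2 :=
        hlim.eventually (gt_mem_nhds (ENNReal.half_pos hε))
      obtain ⟨N, ha, hb, hc⟩ := (h1.and ((eventually_ge_atTop N₀).and (eventually_ge_atTop m))).exists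
      exact ⟨N, ha.le, hb, hc⟩
    obtain ⟨P, hPS, hPinj, hPmax⟩ := exists_matching hn (pre N)
      {x : Fin n → X | Function.Injective (fun i => pre m (x i)) ∧
        ∀ y ∈ D, ¬ ∀ i, Lab (z y) (x i) N (k i)} (by
      rintro t ⟨ht, -⟩ i i' h
      exact ht (pre_of_pre hNm h))
    refine ⟨N, hN0, P, ?_, hPinj, fun x hx => (hPS x hx).1, fun x hx => (hPS x hx).2⟩
    let V : Finset (Str N) := (P ×ˢ Finset.univ).image (fun p => pre N (p.1 p.2))
    have hV : V.card ≤ P.card * n := by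
      refine Finset.card_image_le.trans ?_
      rw [Finset.card_product, Finset.card_univ, Fintype.card_fin]
    let A : Set X := {x | pre N x ∈ V} ∪ ⋃ y ∈ D, {x | ∃ j, N < j ∧ Hit j (z y) x}
    have hA : ¬ muX A ≤ ε := by
      intro hA
      obtain ⟨x, hx1, hx2, hx3⟩ := hcon D A hA
      by_cases hxS : ∀ y ∈ D, ¬ ∀ i, Lab (z y) (x i) N (k i)
      · obtain ⟨x', hx', i, i', h⟩ := hPmax x ⟨hx1, hxS⟩
        exact hx2 i (Or.inl (Finset.mem_image.2 ⟨(x', i'), by simp [hx'], h.symm⟩))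
      · push Not at hxS
        obtain ⟨y, hy, hL⟩ := hxS
        obtain ⟨i, hi⟩ := hx3 y hy
        obtain ⟨M, hM⟩ := final_of_lab (hL i)
          (fun j hj hhit => hx2 i (Or.inr (mem_biUnion hy ⟨j, hj, hhit⟩)))
        exact hi M hM
    have hAle : muX A ≤ (P.card * n : ℝ≥0∞) / 2 ^ L N + ε / 2 := by
      refine (measure_union_le _ _).trans (add_le_add ?_ ?_)
      · rw [muX_pre]
        refine ENNReal.div_le_div_right ?_ _
        exact_mod_cast hV
      · refine (measure_biUnion_finset_le _ _).trans (le_trans ?_ hNε)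
        exact Finset.sum_le_sum (fun y _ => muX_hit N (z y))
    have hlt : ε / 2 ≤ (P.card * n : ℝ≥0∞) / 2 ^ L N := by
      by_contra h
      push Not at h
      refine hA (hAle.trans ?_)
      calc (P.card * n : ℝ≥0∞) / 2 ^ L N + ε / 2 ≤ ε / 2 + ε / 2 := by gcongr
        _ = ε := ENNReal.add_halves ε
    have h2L : (2 : ℝ≥0∞) ^ L N ≠ 0 := by positivity
    have h2L' : (2 : ℝ≥0∞) ^ L N ≠ ∞ := by finiteness
    rw [ENNReal.le_div_iff_mul_le (Or.inl h2L) (Or.inl h2L')] at hlt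
    have hKP : K * (P.card : ℝ≥0∞) = (2 * n * P.card) / ε := by
      rw [hKdef, div_eq_mul_inv, div_eq_mul_inv]
      ring
    rw [hKP, ENNReal.le_div_iff_mul_le (Or.inl hε) (Or.inl hεt)]
    calc (2 : ℝ≥0∞) ^ L N * ε = 2 * (ε / 2 * 2 ^ L N) := by
          rw [← mul_assoc, ENNReal.mul_div_cancel (by norm_num) (by norm_num), mul_comm]
      _ ≤ 2 * (P.card * n) := by gcongr
      _ = 2 * n * P.card := by ring)
  have hgood := ae_good hn ν hK h1 h2 k
  rw [ae_iff] at hgood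
  refine hz (measure_mono_null ?_ hgood)
  rintro _ ⟨y, rfl⟩
  simp only [mem_ofPred_eq, not_exists, not_lt, nonpos_iff_eq_zero]
  intro N
  have hle : ∀ j, N ≤ j → ν {x | ∀ i, Final (z y) (x i) N (k i)} ≤ n * K * eta j (z y) :=
    fun j hj => (measure_mono (show {x : Fin n → X | ∀ i, Final (z y) (x i) N (k i)} ⊆
      {x | ∀ i, Lab (z y) (x i) j (k i)} from fun x hx i => lab_of_final (hx i) hj)).trans (h3 y j)
  have hlim : Tendsto (fun j => (n : ℝ≥0∞) * K * eta j (z y)) atTop (𝓝 ((n : ℝ≥0∞) * K * 0)) :=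
    ENNReal.Tendsto.const_mul (tendsto_eta (hz0 y)) (Or.inr (by finiteness))
  rw [mul_zero] at hlim
  exact nonpos_iff_eq_zero.1 (ge_of_tendsto hlim ((eventually_ge_atTop N).mono hle))

end Pool.Agent.LibSier69
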