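import Mathlib
import Pool.Agent.LibSier69.Core
import Pool.Agent.LibSier69.Hf
import Pool.Agent.LibDowk70.Space

/-!
# The guessing function
-/

namespace Pool.Agent.LibSier69

open MeasureTheory Set Filter Topology
open scoped ENNReal

/-- Finitely many distinct points have distinct initial segments. -/
theorem exists_pre_injective {ι : Type*} [Finite ι] {x : ι → X} (hx : Function.Injective x) :
    ∃ m, Function.Injective (fun i => pre m (x i)) := by
  have h : ∀ i i', ∀ᶠ m in atTop, pre m (x i) = pre m (x i') → i = i' := by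
    intro i i'
    by_cases hii : i = i'
    · exact Eventually.of_forall (fun _ _ => hii)
    · obtain ⟨c, hc⟩ := Function.ne_iff.1 (fun h => hii (hx h))
      filter_upwards [eventually_gt_atTop c] with m hm h
      exact absurd (congrFun h ⟨c, hm.trans_le (Nat.le_mul_self m)⟩) hc
  obtain ⟨m, hm⟩ := (eventually_all.2 (fun i => eventually_all.2 (h i))).exists
  exact ⟨m, fun i i' h => hm i i' h⟩

/-- The guessing function obtained from two families of points meeting every null set in a
countable set. -/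
theorem guess {W : Type} [LinearOrder W] [WellFoundedLT W]
    (hc : ∀ a : W, (Iic a).Countable) (hu : ¬ (univ : Set W).Countable)
    (x : W → X) (z : W → Om) (hx : Function.Injective x)
    (hxn : ∀ H : Set X, muX H = 0 → {w | x w ∈ H}.Countable)
    (hzn : ∀ H : Set Om, muOm H = 0 → {w | z w ∈ H}.Countable) :
    ∃ f : W → W → ℕ, LibDowk70.Guess W f := by
  classical
  let f : W → W → ℕ := fun δ y => if h : ∃ k N, Final (z y) (x δ) N k then h.choose else 0
  have hf : ∀ {δ y k N}, Final (z y) (x δ) N k → f δ y = k := by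
    intro δ y k N h
    have hex : ∃ k N, Final (z y) (x δ) N k := ⟨k, N, h⟩
    have h1 : f δ y = hex.choose := dif_pos hex
    rw [h1]
    obtain ⟨N', hN'⟩ := hex.choose_spec
    exact final_unique hN' h
  refine ⟨f, fun B hB => ?_⟩
  let B' : Set W := {y | y ∈ B ∧ z y ∈ Om0}
  have hB' : ¬ B'.Countable := by
    intro h
    have h0 : muOm Om0ᶜ = 0 := ae_Om0
    refine hB ((h.union (hzn _ h0)).mono (fun y hy => ?_))
    by_cases h : z y ∈ Om0
    · exact Or.inl ⟨hy, h⟩
    · exact Or.inr h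
  have hnn : muOm (range (fun y : B' => z y)) ≠ 0 := by
    intro h
    refine hB' ((hzn _ h).mono ?_)
    intro y hy
    exact mem_range.2 ⟨(⟨y, hy⟩ : B'), rfl⟩
  have hcore : ∀ q : (Σ n : ℕ, (Fin (n + 1) → ℕ)) × ℕ × ℕ,
      ∃ (D : Finset B') (A : Set X), muX A ≤ (1 / 2) ^ q.2.2 ∧
        ∀ x' : Fin (q.1.1 + 1) → X, Function.Injective (fun i => pre q.2.1 (x' i)) →
          (∀ i, x' i ∉ A) → ∃ y ∈ D, ∀ i, ∃ N, Final (z y) (x' i) N (q.1.2 i) := fun q =>
    core (Nat.succ_pos _) q.1.2 (fun y : B' => z y) (fun y => y.2.2) hnn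
      (pow_ne_zero _ (by simp))
  choose D A hA hDA using hcore
  let H : Set X := ⋃ q : (Σ n : ℕ, (Fin (n + 1) → ℕ)) × ℕ,
    limsup (fun p => A (q.1, q.2, p)) atTop
  have hH : muX H = 0 := by
    refine measure_iUnion_null (fun q => measure_limsup_atTop_eq_zero ?_)
    refine ne_top_of_le_ne_top ?_ (ENNReal.tsum_le_tsum (fun p => hA (q.1, q.2, p)))
    simp only
    rw [ENNReal.tsum_geometric]
    norm_num
  obtain ⟨b₀, hb₀⟩ : B.Nonempty := by
    rw [nonempty_iff_ne_empty]
    rintro rfl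
    exact hB countable_empty
  obtain ⟨γ, hγ⟩ := LibDowk70.exists_bound hc hu
    (C := (⋃ q, (fun y : B' => (y : W)) '' (D q : Set B')) ∪ {w | x w ∈ H} ∪ {b₀}) (by
      refine (Countable.union (countable_iUnion (fun q => ?_)) (hxn H hH)).union
        (countable_singleton _)
      exact (Finset.countable_toSet _).image _)
  refine ⟨γ, fun F hF k => ?_⟩
  rcases F.eq_empty_or_nonempty with rfl | hne
  · exact ⟨b₀, hb₀, hγ b₀ (Or.inr rfl), by simp⟩
  · obtain ⟨n, hn⟩ : ∃ n, F.card = n + 1 :=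
      Nat.exists_eq_succ_of_ne_zero (Finset.card_ne_zero.2 hne)
    let e : Fin (n + 1) ≃ F := (F.equivFinOfCardEq hn).symm
    obtain ⟨m, hm⟩ : ∃ m, Function.Injective (fun i => pre m (x (e i))) :=
      exists_pre_injective (x := fun i => x (e i))
        (fun a b hab => e.injective (Subtype.ext (hx hab)))
    have hev : ∀ i, ∀ᶠ p in atTop, x (e i) ∉ A (⟨n, fun i => k (e i)⟩, m, p) := by
      intro i
      have h1 : x (e i) ∉ H := by
        intro hcon
        exact lt_asymm (hγ (e i : W) (Or.inl (Or.inr hcon))) (hF _ (e i).2)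
      have h2 : x (e i) ∉ limsup (fun p => A (⟨n, fun i => k (e i)⟩, m, p)) atTop :=
        fun hcon => h1 (mem_iUnion.2 ⟨(⟨n, fun i => k (e i)⟩, m), hcon⟩)
      rw [mem_limsup_iff_frequently_mem] at h2
      exact not_frequently.1 h2
    obtain ⟨p, hp⟩ := (eventually_all.2 hev).exists
    obtain ⟨y, hyD, hy⟩ := hDA (⟨n, fun i => k (e i)⟩, m, p) (fun i => x (e i)) hm hp
    refine ⟨y, y.2.1, hγ y (Or.inl (Or.inl (mem_iUnion.2 ⟨_, y, hyD, rfl⟩))), fun δ hδ => ?_⟩
    obtain ⟨N, hN⟩ := hy (e.symm ⟨δ, hδ⟩)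
    simp only [Equiv.apply_symm_apply] at hN
    exact hf hN

end Pool.Agent.LibSier69
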