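import Mathlib
import Pool.Agent.LibSier69.MuX

/-!
# Families of points meeting every null set in a countable set
-/

namespace Pool.Agent.LibSier69

open MeasureTheory Set Filter Topology
open scoped ENNReal unitInterval

theorem muX_point (c : X) : muX {c} = 0 := by
  have h : ∀ N, muX {c} ≤ 1 / 2 ^ L N := by
    intro N
    refine (measure_mono ?_).trans (muX_pre_eq N (pre N c)).le
    rintro _ rfl
    rfl
  have hlim : Tendsto (fun N => (1 : ℝ≥0∞) / 2 ^ L N) atTop (𝓝 0) := by
    have h1 : Tendsto (fun j : ℕ => (1 : ℝ≥0∞) / 2 ^ j) atTop (𝓝 0) := by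
      have := ENNReal.tendsto_pow_atTop_nhds_zero_of_lt_one (r := 1 / 2) (by
        rw [ENNReal.div_lt_iff (by norm_num) (by norm_num)]; norm_num)
      refine this.congr (fun j => ?_)
      simp [ENNReal.inv_pow]
    refine h1.comp (tendsto_atTop_mono (fun n => Nat.le_mul_self n) tendsto_id)
  exact nonpos_iff_eq_zero.1 (ge_of_tendsto' hlim h)

/-- A family in the unit interval from a Sierpiński set. -/
theorem exists_family {S : Set ℝ} (hS : ¬ S.Countable)
    (hS2 : ∀ N : Set ℝ, volume N = 0 → (S ∩ N).Countable) {W : Type}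
    (hW : Cardinal.mk W = Cardinal.aleph 1) :
    ∃ r : W → I, ∀ N : Set I, volume N = 0 → {w | r w ∈ N}.Countable := by
  obtain ⟨q, hq⟩ : ∃ q : ℤ, ¬ (S ∩ Icc (q : ℝ) (q + 1)).Countable := by
    by_contra hcon
    push Not at hcon
    refine hS ((countable_iUnion hcon).mono ?_)
    intro t ht
    exact mem_iUnion.2 ⟨⌊t⌋, ht, Int.floor_le t, (Int.lt_floor_add_one t).le⟩
  have hle : Cardinal.mk W ≤ Cardinal.mk ↥(S ∩ Icc (q : ℝ) (q + 1)) := by
    rw [hW, ← Cardinal.succ_aleph0, Order.succ_le_iff, ← not_le, Cardinal.mk_le_aleph0_iff,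
      Set.countable_coe_iff]
    exact hq
  obtain ⟨e⟩ := hle
  refine ⟨fun w => ⟨(e w : ℝ) - q, by
    have := (e w).2.2
    exact ⟨by linarith [this.1], by linarith [this.2]⟩⟩, fun N hN => ?_⟩
  have h1 : volume ((fun t : I => (t : ℝ)) '' N) = 0 := by
    have := (MeasurableEmbedding.subtype_coe (measurableSet_Icc (a := (0 : ℝ)) (b := 1))).comap_apply
      volume N
    rw [← this]
    exact hN
  have h2 : volume ((fun t : ℝ => t + (-q)) ⁻¹' ((fun t : I => (t : ℝ)) '' N)) = 0 := by
    rw [measure_preimage_add_right]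
    exact h1
  have h3 := hS2 _ h2
  refine (h3.preimage_of_injOn (f := fun w => (e w : ℝ)) ?_).mono ?_
  · exact (Subtype.val_injective.comp e.injective).injOn
  · intro w hw
    exact ⟨(e w).2.1, _, hw, by simp [sub_eq_add_neg]⟩

theorem exists_maps {S : Set ℝ} (hS : ¬ S.Countable)
    (hS2 : ∀ N : Set ℝ, volume N = 0 → (S ∩ N).Countable) {W : Type}
    (hW : Cardinal.mk W = Cardinal.aleph 1) :
    ∃ (x : W → X) (z : W → Om), Function.Injective x ∧
      (∀ H : Set X, muX H = 0 → {w | x w ∈ H}.Countable) ∧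
      (∀ H : Set Om, muOm H = 0 → {w | z w ∈ H}.Countable) := by
  obtain ⟨r, hr⟩ := exists_family hS hS2 hW
  obtain ⟨g, hg, hgm⟩ := Measure.exists_measurable_map_eq muX
  obtain ⟨g', hg', hgm'⟩ := Measure.exists_measurable_map_eq muOm
  have hx : ∀ H : Set X, muX H = 0 → {w | g (r w) ∈ H}.Countable := by
    intro H hH
    refine (hr (g ⁻¹' (toMeasurable muX H)) ?_).mono
      (fun w (hw : g (r w) ∈ H) => (subset_toMeasurable muX H hw : g (r w) ∈ toMeasurable muX H))
    rw [← Measure.map_apply hg (measurableSet_toMeasurable _ _), hgm, measure_toMeasurable, hH]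
  have hz : ∀ H : Set Om, muOm H = 0 → {w | g' (r w) ∈ H}.Countable := by
    intro H hH
    refine (hr (g' ⁻¹' (toMeasurable muOm H)) ?_).mono
      (fun w (hw : g' (r w) ∈ H) => (subset_toMeasurable muOm H hw : g' (r w) ∈ toMeasurable muOm H))
    rw [← Measure.map_apply hg' (measurableSet_toMeasurable _ _), hgm', measure_toMeasurable, hH]
  obtain ⟨R, -, hR⟩ := Set.exists_subset_bijOn (univ : Set W) (fun w => g (r w))
  have hRu : ¬ R.Countable := by
    intro hRc
    have h1 : (univ : Set W).Countable := by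
      refine (hRc.biUnion (fun v _ => hx {g (r v)} (muX_point _))).mono (fun w _ => ?_)
      obtain ⟨v, hv, hvw⟩ := hR.surjOn (mem_image_of_mem _ (mem_univ w))
      exact mem_biUnion hv hvw.symm
    rw [countable_univ_iff, ← Cardinal.mk_le_aleph0_iff, hW] at h1
    exact absurd Cardinal.aleph0_lt_aleph_one (not_lt.2 h1)
  have hle : Cardinal.mk W ≤ Cardinal.mk R := by
    rw [hW, ← Cardinal.succ_aleph0, Order.succ_le_iff, ← not_le, Cardinal.mk_le_aleph0_iff,
      Set.countable_coe_iff]
    exact hRu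
  obtain ⟨e⟩ := hle
  refine ⟨fun w => g (r (e w)), fun w => g' (r (e w)), ?_, fun H hH => ?_, fun H hH => ?_⟩
  · intro v w hvw
    exact e.injective (Subtype.ext (hR.injOn (e v).2 (e w).2 hvw))
  · exact (hx H hH).preimage_of_injOn (f := fun w => (e w : W))
      (Subtype.val_injective.comp e.injective).injOn
  · exact (hz H hH).preimage_of_injOn (f := fun w => (e w : W))
      (Subtype.val_injective.comp e.injective).injOn

end Pool.Agent.LibSier69
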